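import Pool.Agent.R950.DMB

/-!
# MP_e0e142_ag: Gaussian double Markovian models can be disconnected

`Model G H` is the set of the real positive definite `n × n` matrices `S` with
`(S⁻¹) i j = 0` for the non-edges `ij` of `G` and `S i j = 0` for the non-edges `ij` of `H`;
`CorrModel G H` is the subset of those with unit diagonal (file `Pool/Agent/R950/DMB.lean`).

The counterexample: `n = 11`, vertices `Fin 11 = ℤ/11`, `H` the circulant graph with jumps
`1, 2`, `G` the circulant graph with jumps `1, 3, 4`.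
-/

open Matrix Pool.Agent.R950.DM

namespace Pool.Agent.Results.MP_e0e142_ag.Disconnected

noncomputable section

/-- normalisation to unit diagonal -/
def nrm {n : ℕ} (S : Matrix (Fin n) (Fin n) ℝ) : Matrix (Fin n) (Fin n) ℝ :=
  diagonal (fun i => (√(S i i))⁻¹) * S * diagonal (fun i => (√(S i i))⁻¹)

lemma nrm_apply {n : ℕ} (S : Matrix (Fin n) (Fin n) ℝ) (i j : Fin n) :
    nrm S i j = (√(S i i))⁻¹ * S i j * (√(S j j))⁻¹ := by
  simp [nrm]

lemma nrm_mem {n : ℕ} {G H : SimpleGraph (Fin n)} {S : Matrix (Fin n) (Fin n) ℝ}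
    (hS : S ∈ Model G H) : nrm S ∈ CorrModel G H := by
  obtain ⟨hpd, hG, hH⟩ := hS
  have hd : ∀ i, 0 < √(S i i) := fun i => Real.sqrt_pos.2 hpd.diag_pos
  set d : Fin n → ℝ := fun i => (√(S i i))⁻¹ with hdd
  have hd0 : ∀ i, d i ≠ 0 := fun i => inv_ne_zero (hd i).ne'
  have hDD : diagonal d * diagonal (fun i => √(S i i)) = 1 := by
    rw [diagonal_mul_diagonal, ← diagonal_one]
    congr 1; funext i; exact inv_mul_cancel₀ (hd i).ne'
  have hinvD : (diagonal d)⁻¹ = diagonal (fun i => √(S i i)) := Matrix.inv_eq_right_inv hDD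
  have hunit : IsUnit (diagonal d) := by
    rw [Matrix.isUnit_iff_isUnit_det]
    exact Matrix.isUnit_det_of_right_inverse hDD
  refine ⟨⟨?_, ?_, ?_⟩, ?_⟩
  · have h1 := hpd.conjTranspose_mul_mul_same (B := diagonal d)
      (mulVec_injective_of_isUnit hunit)
    have h2 : (diagonal d)ᴴ = diagonal d := by
      rw [diagonal_conjTranspose]; congr 1
    rwa [h2] at h1
  · intro i j hij h
    have : (nrm S)⁻¹ = diagonal (fun i => √(S i i)) * S⁻¹ * diagonal (fun i => √(S i i)) := by
      unfold nrm
      rw [Matrix.mul_inv_rev, Matrix.mul_inv_rev, ← hdd, hinvD, mul_assoc]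
    rw [this]
    simp [hG i j hij h]
  · intro i j hij h
    rw [nrm_apply, hH i j hij h]; ring
  · intro i
    rw [nrm_apply]
    have h1 := hd i
    have h2 : √(S i i) * √(S i i) = S i i := Real.mul_self_sqrt hpd.diag_pos.le
    field_simp
    nlinarith

lemma nrm_fix {n : ℕ} {G H : SimpleGraph (Fin n)} {S : Matrix (Fin n) (Fin n) ℝ}
    (hS : S ∈ CorrModel G H) : nrm S = S := by
  ext i j
  rw [nrm_apply, hS.2, hS.2, Real.sqrt_one]
  simp

lemma nrm_cont {n : ℕ} (G H : SimpleGraph (Fin n)) : ContinuousOn nrm (Model G H) := by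
  have h1 : ∀ i, ContinuousOn (fun S : Matrix (Fin n) (Fin n) ℝ => (√(S i i))⁻¹) (Model G H) := by
    intro i
    apply ContinuousOn.inv₀
    · exact (Real.continuous_sqrt.comp (continuous_id.matrix_elem i i)).continuousOn
    · intro S hS
      exact (Real.sqrt_pos.2 hS.1.diag_pos).ne'
  apply continuousOn_pi.2
  intro i
  apply continuousOn_pi.2
  intro j
  have : (fun S : Matrix (Fin n) (Fin n) ℝ => nrm S i j) =
      fun S => (√(S i i))⁻¹ * S i j * (√(S j j))⁻¹ := by
    funext S; exact nrm_apply S i j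
  rw [this]
  exact ((h1 i).mul (continuous_id.matrix_elem i j).continuousOn).mul (h1 j)

lemma corr_preconnected {n : ℕ} {G H : SimpleGraph (Fin n)} (h : IsPreconnected (Model G H)) :
    IsPreconnected (CorrModel G H) := by
  have h1 := h.image nrm (nrm_cont G H)
  have h2 : nrm '' Model G H = CorrModel G H := by
    apply Set.Subset.antisymm
    · rintro _ ⟨S, hS, rfl⟩
      exact nrm_mem hS
    · intro S hS
      exact ⟨S, hS.1, nrm_fix hS⟩
  rwa [h2] at h1

/-- **Disproof of Q1 of MP_e0e142**: there are graphs `G, H` on the same (eleven) vertices for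
which neither the Gaussian double Markovian model nor its correlation model is connected. -/
theorem result : ∃ (n : ℕ) (G H : SimpleGraph (Fin n)),
    ¬ IsConnected (Model G H) ∧ ¬ IsConnected (CorrModel G H) :=
  ⟨11, G11, H11, fun h => corr_not_preconnected (corr_preconnected h.isPreconnected),
    fun h => corr_not_preconnected h.isPreconnected⟩

end

end Pool.Agent.Results.MP_e0e142_ag.Disconnected
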